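import Pool.Agent.TH872.Sq.W16

set_option autoImplicit false

/-! The local factors of `x ^ 2 + x + A`. -/

namespace Pool.Agent.TH872.Sq
open Finset
open Pool.Agent.H373R2.T7

lemma nu1_euler (a p : ℕ) (hp : p.Prime) (hp2 : p ≠ 2) : (nu1 1 1 (1 * (a : ℤ)) p : ℤ) = jacobiSym (1 - 4 * (a : ℤ)) p + 1 := by
  have : Fact p.Prime := ⟨hp⟩
  rw [← jacobiSym.legendreSym.to_jacobiSym, ← legendreSym.card_sqrts p hp2]
  have h2 : (2 : ZMod p) ≠ 0 := by
    intro h
    have h3 : ((2 : ℕ) : ZMod p) = 0 := by exact_mod_cast h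
    rw [ZMod.natCast_eq_zero_iff] at h3
    exact hp2 ((Nat.prime_dvd_prime_iff_eq hp Nat.prime_two).1 h3)
  have h1 : nu1 1 1 (1 * (a : ℤ)) p = #({x : ZMod p | x ^ 2 = ((1 - 4 * (a : ℤ) : ℤ) : ZMod p)} : Set (ZMod p)).toFinset := by
    unfold nu1
    have key : ∀ r : ℕ, (p : ℤ) ∣ 1 * (r : ℤ) ^ 2 + 1 * r + 1 * (a : ℤ) ↔ (2 * (r : ZMod p) + 1) ^ 2 = ((1 - 4 * (a : ℤ) : ℤ) : ZMod p) := by
      intro r
      rw [← ZMod.intCast_zmod_eq_zero_iff_dvd]
      push_cast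
      constructor
      · intro h
        linear_combination 4 * h
      · intro h
        have h4 : (2 : ZMod p) * 2 * (1 * (r : ZMod p) ^ 2 + 1 * r + 1 * a) = 0 := by linear_combination h
        rcases mul_eq_zero.1 h4 with h5 | h5
        · exact absurd h5 (mul_ne_zero h2 h2)
        · exact h5
    apply card_bij (fun (r : ℕ) _ => 2 * (r : ZMod p) + 1)
    · intro r hr
      rw [mem_filter] at hr
      simp only [Set.mem_toFinset, Set.mem_ofPred_eq]
      exact (key r).1 hr.2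
    · intro r hr s hs hrs
      rw [mem_filter, mem_range] at hr hs
      have hrs' : (r : ZMod p) = s := mul_left_cancel₀ h2 (add_right_cancel hrs)
      have := (ZMod.natCast_eq_natCast_iff' r s p).1 hrs'
      rwa [Nat.mod_eq_of_lt hr.1, Nat.mod_eq_of_lt hs.1] at this
    · intro x hx
      simp only [Set.mem_toFinset, Set.mem_ofPred_eq] at hx
      have hval : ((((x - 1) * 2⁻¹ : ZMod p).val : ℕ) : ZMod p) = (x - 1) * 2⁻¹ := ZMod.natCast_zmod_val _
      have hx2 : 2 * ((((x - 1) * 2⁻¹ : ZMod p).val : ℕ) : ZMod p) + 1 = x := by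
        rw [hval]; field_simp; ring
      refine ⟨((x - 1) * 2⁻¹ : ZMod p).val, ?_, hx2⟩
      rw [mem_filter, mem_range]
      refine ⟨ZMod.val_lt _, (key _).2 ?_⟩
      rw [hx2]; exact hx
  rw [h1]

/-- the prediction, with the factors of the Mertens product distributed -/
lemma SgD1_split (b : ℕ) (D : ℕ → Finset ℕ) (k : ℕ) (κ β c : ℤ) (z : ℕ) (hz : b ≤ z) :
    SgD1 b D k κ β c z = (Vz b)⁻¹ * ((((SD b D k).filter (fun n : ℕ => ∀ p ∈ pz b, ¬ (p : ℤ) ∣ κ * (n : ℤ) ^ 2 + β * n + c)).card : ℝ) / (SD b D k).card) *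
    ∏ p ∈ (pz z).filter (fun p => b < p), ((1 - (nu1 κ β c p : ℝ) / p) / (1 - 1 / (p : ℝ))) := by
  unfold SgD1
  rw [prod_div_distrib]
  have h1 : Vz z = Vz b * ∏ p ∈ (pz z).filter (fun p => b < p), (1 - 1 / (p : ℝ)) := by
    unfold Vz
    rw [← prod_filter_mul_prod_filter_not (pz z) (fun p => b < p), mul_comm]
    congr 1
    apply prod_congr _ fun _ _ => rfl
    ext p
    rw [mem_filter, mem_pz, mem_pz]
    constructor
    · rintro ⟨⟨_, h2⟩, h3⟩; exact ⟨not_lt.1 h3, h2⟩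
    · rintro ⟨h2, h3⟩; exact ⟨⟨h2.trans hz, h3⟩, not_lt.2 h2⟩
  have h2 : (∏ p ∈ (pz z).filter (fun p => b < p), (1 - 1 / (p : ℝ))) ≠ 0 := by
    intro h3
    rw [h3, mul_zero] at h1
    exact (Vz_pos z).ne' h1
  have h3 := (Vz_pos b).ne'
  rw [h1]
  field_simp

end Pool.Agent.TH872.Sq
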