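import Pool.Agent.TH872.Sq.W21

set_option autoImplicit false

/-! Sign patterns. -/

namespace Pool.Agent.TH872.Sq
open Finset
open Pool.Agent.H373R2.T7
open Pool.Agent.W93.LM (Nice)

/-- products of nice functions over a nonempty set of coordinates -/
theorem subset_nice (b : ℕ) (hb : 2 ≤ b) (r : ℕ) (κ β : Fin r → ℤ) (hκ : ∀ j, ld (κ j) (β j) ≠ 0)
    (f : Fin r → ℕ → ℝ) (hf : ∀ j, Nice (fun n => ((f j n : ℝ) : ℂ))) (t : Finset (Fin r)) (ht : t.Nonempty) (F₀ U : ℕ) :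
    ∃ K₀ : ℕ, ∀ k : ℕ, K₀ ≤ k →
    ∀ D : ℕ → Finset ℕ, (∀ i < k, D i ⊆ range b ∧ 2 ≤ (D i).card) → ∀ σ : Fin r → ℤ, (∀ j, σ j = 1 ∨ σ j = -1) →
    ∀ X : Fin r → ℕ, (∀ j, b ^ (dg (κ j) * k) ≤ X j ∧ X j ≤ F₀ * b ^ (dg (κ j) * k)) →
    ∀ G : ℕ → ℝ, (∀ n, |G n| ≤ 1) →
    ∑ c ∈ Fintype.piFinset (fun j : Fin r => Icc 1 (X j)), |1 / ((SD b D k).card : ℝ) * ∑ n ∈ SD b D k,
      G n * ∏ j ∈ t, fx (f j) (qv (κ j) (β j) n + σ j * (c j : ℤ))| ≤ (∏ j, (X j : ℝ)) / (k : ℝ) ^ U := by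
  classical
  obtain ⟨i, hi⟩ := ht
  obtain ⟨K₀, h1⟩ := main_nice1 b hb (κ i) (β i) (hκ i) (f i) (hf i) F₀ U
  refine ⟨K₀ + 1, fun k hk D hD σ hσ X hX G hG => ?_⟩
  have hk0 : (0 : ℝ) < k := by exact_mod_cast (by omega : 0 < k)
  have hXi : (0 : ℝ) < X i := by
    have : 1 ≤ X i := le_trans (Nat.one_le_pow _ _ (by omega)) (hX i).1
    exact_mod_cast this
  obtain ⟨Φ, hΦ⟩ : ∃ Φ : (Fin r → ℕ) → ℝ, ∀ c, Φ c = |1 / ((SD b D k).card : ℝ) * ∑ n ∈ SD b D k,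
    G n * ∏ j ∈ t, fx (f j) (qv (κ j) (β j) n + σ j * (c j : ℤ))| := ⟨_, fun _ => rfl⟩
  simp only [← hΦ]
  have h3 := avg_coord (fun i => Icc 1 (X i)) i Φ
  have h4 : ((Icc 1 (X i)).card : ℝ) = X i := by simp
  rw [h4] at h3
  have h5 : ∀ c ∈ Fintype.piFinset (fun i => Icc 1 (X i)), ∑ v ∈ Icc 1 (X i), Φ (Function.update c i v) ≤ (X i : ℝ) / (k : ℝ) ^ U := by
    intro c _
    have h6 := h1 k (by omega) D hD (σ i) (hσ i) (X i) (hX i).2 (fun n => G n * ∏ j ∈ t.erase i, fx (f j) (qv (κ j) (β j) n + σ j * (c j : ℤ))) (by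
      intro n
      rw [abs_mul, abs_prod]
      exact mul_le_one₀ (hG n) (prod_nonneg fun _ _ => abs_nonneg _) (prod_le_one (fun _ _ => abs_nonneg _) fun j _ => fx_abs_le _ (hf j) _))
    have h7 : ((b ^ (dg (κ i) * k) : ℕ) : ℝ) / (k : ℝ) ^ U ≤ (X i : ℝ) / (k : ℝ) ^ U := by
      apply div_le_div_of_nonneg_right _ (by positivity)
      exact_mod_cast (hX i).1
    refine le_trans (le_of_eq ?_) (h6.trans h7)
    apply sum_congr rfl
    intro v _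
    rw [hΦ]
    congr 2
    apply sum_congr rfl
    intro n _
    rw [← mul_prod_erase t _ hi, Function.update_self, mul_assoc, mul_comm (∏ j ∈ t.erase i, _)]
    congr 2
    apply prod_congr rfl
    intro j hj
    rw [Function.update_of_ne (ne_of_mem_erase hj)]
  have h6 := sum_le_sum h5
  rw [h3, sum_const, nsmul_eq_mul] at h6
  have h7 : ((Fintype.piFinset (fun i => Icc 1 (X i))).card : ℝ) = ∏ i, (X i : ℝ) := by
    rw [Fintype.card_piFinset]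
    push_cast
    apply prod_congr rfl
    intro j _
    simp
  rw [h7] at h6
  have h8 : (X i : ℝ) * ∑ c ∈ Fintype.piFinset (fun i => Icc 1 (X i)), Φ c ≤ X i * ((∏ i, (X i : ℝ)) / (k : ℝ) ^ U) := by
    refine h6.trans (le_of_eq ?_)
    ring
  exact le_of_mul_le_mul_left h8 hXi

/-- the indicator of a sign pattern -/
lemma pattern_ind {r : ℕ} (ε x : Fin r → ℝ) (hε : ∀ j, ε j = 1 ∨ ε j = -1) (hx : ∀ j, x j = 1 ∨ x j = -1) :
    (if ∀ j, x j = ε j then (1 : ℝ) else 0) = (1 / 2) ^ r * ∑ t ∈ (univ : Finset (Fin r)).powerset, ∏ j ∈ t, (ε j * x j) := by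
  classical
  have h1 : ∑ t ∈ (univ : Finset (Fin r)).powerset, ∏ j ∈ t, (ε j * x j) = ∏ j, (1 + ε j * x j) := by
    rw [prod_one_add]
  rw [h1]
  by_cases h : ∀ j, x j = ε j
  · rw [if_pos h]
    have h2 : ∀ j ∈ (univ : Finset (Fin r)), 1 + ε j * x j = 2 := by
      intro j _
      rw [h j]
      rcases hε j with h3 | h3 <;> rw [h3] <;> norm_num
    rw [prod_congr rfl h2, prod_const, card_univ, Fintype.card_fin, ← mul_pow]
    norm_num
  · rw [if_neg h]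
    push Not at h
    obtain ⟨j, hj⟩ := h
    rw [prod_eq_zero (mem_univ j), mul_zero]
    rcases hε j with h3 | h3 <;> rcases hx j with h4 | h4
    · exact absurd (h4.trans h3.symm) hj
    · rw [h3, h4]; norm_num
    · rw [h3, h4]; norm_num
    · exact absurd (h4.trans h3.symm) hj

lemma liF_pm (n : ℕ) : liF n = 1 ∨ liF n = -1 := by
  unfold liF
  exact neg_one_pow_eq_or ℝ _

/-- **All sign patterns are equidistributed**, for almost all vectors of constant terms, in all initial segments and progressions. -/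
theorem main_pattern (b : ℕ) (hb : 2 ≤ b) (r : ℕ) (κ β : Fin r → ℕ) (hκ : ∀ j, κ j ≠ 0 ∨ β j ≠ 0) (F₀ A U : ℕ) :
    ∃ K₀ : ℕ, ∀ k : ℕ, K₀ ≤ k →
    ∀ D : ℕ → Finset ℕ, (∀ i < k, D i ⊆ range b ∧ 2 ≤ (D i).card) →
    ∀ X : Fin r → ℕ, (∀ j, b ^ (dg (κ j) * k) ≤ X j ∧ X j ≤ F₀ * b ^ (dg (κ j) * k)) →
    ∀ Q : (Fin r → ℕ) → Prop, [DecidablePred Q] →
    (∀ c ∈ Fintype.piFinset (fun j : Fin r => Icc 1 (X j)), Q c → ∃ ε : Fin r → ℝ, (∀ j, ε j = 1 ∨ ε j = -1) ∧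
      ∃ Y q a : ℕ, Y ≤ b ^ k ∧ 1 ≤ q ∧ q ≤ k ^ A ∧
      ((SD b D k).card : ℝ) / (k : ℝ) ^ U < |((((SD b D k).filter (fun n => n < Y ∧ n % q = a)).filter (fun n => ∀ j, liF (κ j * n ^ 2 + β j * n + c j) = ε j)).card : ℝ) -
        (((SD b D k).filter (fun n => n < Y ∧ n % q = a)).card : ℝ) / 2 ^ r|) →
    (((Fintype.piFinset (fun j : Fin r => Icc 1 (X j))).filter Q).card : ℝ) ≤ (∏ j, (X j : ℝ)) / (k : ℝ) ^ U := by
  classical
  obtain ⟨W, K1, h1⟩ := uniformize b hb A (U + 1)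
  have hld : ∀ j, ld (κ j : ℤ) (β j : ℤ) ≠ 0 := by
    intro j
    unfold ld
    split_ifs with h
    · have h' : κ j = 0 := by exact_mod_cast h
      exact_mod_cast (hκ j).resolve_left (fun h'' => h'' h')
    · exact h
  have h2 : ∀ t : Finset (Fin r), ∃ K₀ : ℕ, t.Nonempty → ∀ k : ℕ, K₀ ≤ k →
    ∀ D : ℕ → Finset ℕ, (∀ i < k, D i ⊆ range b ∧ 2 ≤ (D i).card) → ∀ σ : Fin r → ℤ, (∀ j, σ j = 1 ∨ σ j = -1) →
    ∀ X : Fin r → ℕ, (∀ j, b ^ (dg (κ j) * k) ≤ X j ∧ X j ≤ F₀ * b ^ (dg (κ j) * k)) →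
    ∀ G : ℕ → ℝ, (∀ n, |G n| ≤ 1) →
    ∑ c ∈ Fintype.piFinset (fun j : Fin r => Icc 1 (X j)), |1 / ((SD b D k).card : ℝ) * ∑ n ∈ SD b D k,
      G n * ∏ j ∈ t, fx liF (qv (κ j) (β j) n + σ j * (c j : ℤ))| ≤ (∏ j, (X j : ℝ)) / (k : ℝ) ^ W := by
    intro t
    by_cases ht : t.Nonempty
    · obtain ⟨K₀, h3⟩ := subset_nice b hb r (fun j => (κ j : ℤ)) (fun j => (β j : ℤ)) hld (fun _ => liF) (fun _ => nice_liF) t ht F₀ W
      exact ⟨K₀, fun _ => h3⟩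
    · exact ⟨0, fun h => absurd h ht⟩
  choose K0 hK0 using h2
  obtain ⟨M, hM⟩ : ∃ M, M = 2 ^ r := ⟨_, rfl⟩
  refine ⟨K1 + univ.sup K0 + M + 1, fun k hk D hD X hX Q _ hQ => ?_⟩
  have hMk : (2 : ℝ) ^ r ≤ k := by exact_mod_cast (by rw [← hM]; omega : 2 ^ r ≤ k)
  have hk1 : (1 : ℝ) ≤ k := by exact_mod_cast (by omega : 1 ≤ k)
  have hk0 : (0 : ℝ) < k := by linarith
  have hprod : 0 ≤ ∏ j, (X j : ℝ) := prod_nonneg fun j _ => Nat.cast_nonneg _
  obtain ⟨C, hC⟩ : ∃ C, C = Fintype.piFinset (fun j : Fin r => Icc 1 (X j)) := ⟨_, rfl⟩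
  rw [← hC]
  rw [← hC] at hQ
  have hval : ∀ c ∈ C, ∀ (n : ℕ) (j : Fin r), fx liF (qv (κ j) (β j) n + 1 * (c j : ℤ)) = liF (κ j * n ^ 2 + β j * n + c j) := by
    intro c hc n j
    rw [hC, Fintype.mem_piFinset] at hc
    have h3 := mem_Icc.1 (hc j)
    unfold fx qv
    have e1 : (κ j : ℤ) * (n : ℤ) ^ 2 + (β j : ℤ) * n + 1 * (c j : ℤ) = ((κ j * n ^ 2 + β j * n + c j : ℕ) : ℤ) := by push_cast; ring
    rw [e1, if_pos (by exact_mod_cast (by omega : 1 ≤ κ j * n ^ 2 + β j * n + c j)), Int.toNat_natCast]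
  -- one pattern
  have hone : ∀ ε : Fin r → ℝ, (∀ j, ε j = 1 ∨ ε j = -1) →
      ((C.filter (fun c => ∃ Y q a : ℕ, Y ≤ b ^ k ∧ 1 ≤ q ∧ q ≤ k ^ A ∧
        ((SD b D k).card : ℝ) / (k : ℝ) ^ U < |((((SD b D k).filter (fun n => n < Y ∧ n % q = a)).filter (fun n => ∀ j, liF (κ j * n ^ 2 + β j * n + c j) = ε j)).card : ℝ) -
        (((SD b D k).filter (fun n => n < Y ∧ n % q = a)).card : ℝ) / 2 ^ r|)).card : ℝ) ≤ (∏ j, (X j : ℝ)) / (k : ℝ) ^ (U + 1) := by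
    intro ε hε
    obtain ⟨g, hg⟩ : ∃ g : (Fin r → ℕ) → ℕ → ℝ, ∀ c n, g c n = (if ∀ j, liF (κ j * n ^ 2 + β j * n + c j) = ε j then (1 : ℝ) else 0) - (1 / 2) ^ r := ⟨_, fun _ _ => rfl⟩
    have hhalf : (0 : ℝ) ≤ (1 / 2) ^ r ∧ (1 / 2 : ℝ) ^ r ≤ 1 := ⟨by positivity, pow_le_one₀ (by norm_num) (by norm_num)⟩
    apply h1 k (by omega) D hD (Fin r → ℕ) C g _ (∏ j, (X j : ℝ)) hprod _ _ _
    · intro c n
      rw [hg, abs_le]
      split_ifs <;> constructor <;> linarith [hhalf.1, hhalf.2]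
    · intro G hG
      have h3 : ∀ c ∈ C, |1 / ((SD b D k).card : ℝ) * ∑ n ∈ SD b D k, G n * g c n| ≤
          ∑ t ∈ ((univ : Finset (Fin r)).powerset).erase ∅, (1 / 2) ^ r * |1 / ((SD b D k).card : ℝ) * ∑ n ∈ SD b D k, G n * ∏ j ∈ t, fx liF (qv (κ j) (β j) n + 1 * (c j : ℤ))| := by
        intro c hc
        have h4 : ∀ n ∈ SD b D k, G n * g c n = ∑ t ∈ ((univ : Finset (Fin r)).powerset).erase ∅, (1 / 2) ^ r * ((∏ j ∈ t, ε j) * (G n * ∏ j ∈ t, fx liF (qv (κ j) (β j) n + 1 * (c j : ℤ)))) := by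
          intro n _
          rw [hg, pattern_ind ε (fun j => liF (κ j * n ^ 2 + β j * n + c j)) hε (fun j => liF_pm _),
            ← add_sum_erase _ _ (empty_mem_powerset (univ : Finset (Fin r))), prod_empty, mul_add, mul_one, add_sub_cancel_left, mul_sum, mul_sum]
          apply sum_congr rfl
          intro t _
          rw [prod_mul_distrib]
          simp only [hval c hc n]
          ring
        rw [sum_congr rfl h4, sum_comm, mul_sum]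
        refine (abs_sum_le_sum_abs _ _).trans (sum_le_sum fun t _ => ?_)
        rw [← mul_sum, ← mul_sum]
        have h5 : |∏ j ∈ t, ε j| = 1 := by
          rw [abs_prod]
          apply prod_eq_one
          intro j _
          rcases hε j with h | h <;> rw [h] <;> norm_num
        have h6 : 1 / ((SD b D k).card : ℝ) * ((1 / 2) ^ r * ((∏ j ∈ t, ε j) * ∑ n ∈ SD b D k, G n * ∏ j ∈ t, fx liF (qv (κ j) (β j) n + 1 * (c j : ℤ)))) =
            (1 / 2) ^ r * ((∏ j ∈ t, ε j) * (1 / ((SD b D k).card : ℝ) * ∑ n ∈ SD b D k, G n * ∏ j ∈ t, fx liF (qv (κ j) (β j) n + 1 * (c j : ℤ)))) := by ring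
        rw [h6, abs_mul, abs_mul, h5, one_mul, abs_of_nonneg hhalf.1]
      refine (sum_le_sum h3).trans ?_
      rw [sum_comm]
      have h4 : ∀ t ∈ ((univ : Finset (Fin r)).powerset).erase ∅, ∑ c ∈ C, (1 / 2 : ℝ) ^ r * |1 / ((SD b D k).card : ℝ) * ∑ n ∈ SD b D k, G n * ∏ j ∈ t, fx liF (qv (κ j) (β j) n + 1 * (c j : ℤ))| ≤
          (1 / 2) ^ r * ((∏ j, (X j : ℝ)) / (k : ℝ) ^ W) := by
        intro t ht
        rw [← mul_sum]
        apply mul_le_mul_of_nonneg_left _ hhalf.1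
        rw [hC]
        exact hK0 t (nonempty_iff_ne_empty.2 (ne_of_mem_erase ht)) k (by have := le_sup (f := K0) (mem_univ t); omega) D hD (fun _ => 1) (fun _ => Or.inl rfl) X hX G hG
      refine (sum_le_sum h4).trans ?_
      rw [sum_const, nsmul_eq_mul]
      have h5 : ((((univ : Finset (Fin r)).powerset).erase ∅).card : ℝ) ≤ 2 ^ r := by
        have h6 : (((univ : Finset (Fin r)).powerset).erase ∅).card ≤ 2 ^ r := by
          refine (card_erase_le).trans ?_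
          rw [card_powerset, card_univ, Fintype.card_fin]
        exact_mod_cast h6
      calc ((((univ : Finset (Fin r)).powerset).erase ∅).card : ℝ) * ((1 / 2) ^ r * ((∏ j, (X j : ℝ)) / (k : ℝ) ^ W)) ≤
          2 ^ r * ((1 / 2) ^ r * ((∏ j, (X j : ℝ)) / (k : ℝ) ^ W)) := mul_le_mul_of_nonneg_right h5 (mul_nonneg hhalf.1 (div_nonneg hprod (pow_nonneg hk0.le _)))
        _ = _ := by rw [← mul_assoc, ← mul_pow]; norm_num
    · intro c _ hc
      obtain ⟨Y, q, a, hY, hq1, hq2, hlt⟩ := hc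
      refine ⟨Y, q, a, hY, hq1, hq2, ?_⟩
      have h3 : ∑ n ∈ (SD b D k).filter (fun n => n < Y ∧ n % q = a), g c n =
          ((((SD b D k).filter (fun n => n < Y ∧ n % q = a)).filter (fun n => ∀ j, liF (κ j * n ^ 2 + β j * n + c j) = ε j)).card : ℝ) -
            (((SD b D k).filter (fun n => n < Y ∧ n % q = a)).card : ℝ) / 2 ^ r := by
        simp only [hg]
        rw [sum_sub_distrib, sum_boole, sum_const, nsmul_eq_mul, div_pow, one_pow, mul_one_div]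
      rw [h3]
      refine lt_of_le_of_lt ?_ hlt
      apply div_le_div_of_nonneg_left (Nat.cast_nonneg _) (by positivity)
      exact pow_le_pow_right₀ hk1 (Nat.le_succ U)
  -- all the patterns
  have hcov : C.filter Q ⊆ (Fintype.piFinset (fun _ : Fin r => ({1, -1} : Finset ℝ))).biUnion (fun ε => C.filter (fun c => ∃ Y q a : ℕ, Y ≤ b ^ k ∧ 1 ≤ q ∧ q ≤ k ^ A ∧
        ((SD b D k).card : ℝ) / (k : ℝ) ^ U < |((((SD b D k).filter (fun n => n < Y ∧ n % q = a)).filter (fun n => ∀ j, liF (κ j * n ^ 2 + β j * n + c j) = ε j)).card : ℝ) -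
        (((SD b D k).filter (fun n => n < Y ∧ n % q = a)).card : ℝ) / 2 ^ r|)) := by
    intro c hc
    rw [mem_filter] at hc
    obtain ⟨ε, hε, h3⟩ := hQ c hc.1 hc.2
    rw [mem_biUnion]
    refine ⟨ε, ?_, mem_filter.2 ⟨hc.1, h3⟩⟩
    rw [Fintype.mem_piFinset]
    intro j
    rw [mem_insert, mem_singleton]
    exact hε j
  have h3 : ((C.filter Q).card : ℝ) ≤ ∑ ε ∈ Fintype.piFinset (fun _ : Fin r => ({1, -1} : Finset ℝ)), (∏ j, (X j : ℝ)) / (k : ℝ) ^ (U + 1) := by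
    have h4 : ((C.filter Q).card : ℝ) ≤ ∑ ε ∈ Fintype.piFinset (fun _ : Fin r => ({1, -1} : Finset ℝ)), ((C.filter (fun c => ∃ Y q a : ℕ, Y ≤ b ^ k ∧ 1 ≤ q ∧ q ≤ k ^ A ∧
        ((SD b D k).card : ℝ) / (k : ℝ) ^ U < |((((SD b D k).filter (fun n => n < Y ∧ n % q = a)).filter (fun n => ∀ j, liF (κ j * n ^ 2 + β j * n + c j) = ε j)).card : ℝ) -
        (((SD b D k).filter (fun n => n < Y ∧ n % q = a)).card : ℝ) / 2 ^ r|)).card : ℝ) := by
      exact_mod_cast (card_le_card hcov).trans card_biUnion_le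
    refine h4.trans (sum_le_sum fun ε hε => hone ε fun j => ?_)
    rw [Fintype.mem_piFinset] at hε
    have := hε j
    rwa [mem_insert, mem_singleton] at this
  refine h3.trans ?_
  rw [sum_const, nsmul_eq_mul]
  have h4 : ((Fintype.piFinset (fun _ : Fin r => ({1, -1} : Finset ℝ))).card : ℝ) ≤ 2 ^ r := by
    have h5 : (Fintype.piFinset (fun _ : Fin r => ({1, -1} : Finset ℝ))).card ≤ 2 ^ r := by
      rw [Fintype.card_piFinset, prod_const, card_univ, Fintype.card_fin]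
      exact Nat.pow_le_pow_left card_le_two r
    exact_mod_cast h5
  have h5 : 0 ≤ (∏ j, (X j : ℝ)) / (k : ℝ) ^ (U + 1) := div_nonneg hprod (pow_nonneg hk0.le _)
  refine (mul_le_mul_of_nonneg_right (h4.trans hMk) h5).trans (le_of_eq ?_)
  rw [pow_succ]
  have := pow_pos hk0 U
  field_simp

end Pool.Agent.TH872.Sq
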