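import Pool.Agent.TH872.Sq.W17

set_option autoImplicit false

/-! Two polynomials. -/

namespace Pool.Agent.TH872.Sq
open Finset
open Pool.Agent.H373R2.T7

/-- the number of the residues modulo `p` at which one of two polynomials vanishes -/
def nu2 (κ β κ' β' c c' : ℤ) (p : ℕ) : ℕ :=
  ((range p).filter (fun a : ℕ => (p : ℤ) ∣ κ * (a : ℤ) ^ 2 + β * a + c ∨ (p : ℤ) ∣ κ' * (a : ℤ) ^ 2 + β' * a + c')).card

/-- the number of the `n` in `SD` at which no prime up to `b` divides one of the two values -/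
def loc2 (b : ℕ) (D : ℕ → Finset ℕ) (k : ℕ) (κ β κ' β' c c' : ℤ) : ℕ :=
  ((SD b D k).filter (fun n : ℕ => ∀ p ∈ pz b, ¬ ((p : ℤ) ∣ κ * (n : ℤ) ^ 2 + β * n + c ∨ (p : ℤ) ∣ κ' * (n : ℤ) ^ 2 + β' * n + c'))).card

/-- the predicted average: two polynomials -/
noncomputable def SgD2 (b : ℕ) (D : ℕ → Finset ℕ) (k : ℕ) (κ β κ' β' c c' : ℤ) (z : ℕ) : ℝ :=
  (Vz z)⁻¹ ^ 2 * ((loc2 b D k κ β κ' β' c c' : ℝ) / (SD b D k).card) *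
    ∏ p ∈ (pz z).filter (fun p => b < p), (1 - (nu2 κ β κ' β' c c' p : ℝ) / p)

lemma ex_two {P : Fin 2 → Prop} : (∃ j, P j) ↔ (P 0 ∨ P 1) := Fin.exists_fin_two

lemma nu_two_eq (κ β c : Fin 2 → ℤ) (p : ℕ) : nu κ β c p = nu2 (κ 0) (β 0) (κ 1) (β 1) (c 0) (c 1) p := by
  unfold nu nu2
  congr 1
  apply filter_congr
  intro a _
  exact ex_two

lemma loc_two_eq (b : ℕ) (D : ℕ → Finset ℕ) (k : ℕ) (κ β c : Fin 2 → ℤ) :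
    ((SD b D k).filter (fun n : ℕ => ∀ p ∈ pz b, ¬ ∃ j, (p : ℤ) ∣ κ j * (n : ℤ) ^ 2 + β j * n + c j)).card =
      loc2 b D k (κ 0) (β 0) (κ 1) (β 1) (c 0) (c 1) := by
  unfold loc2
  congr 1
  apply filter_congr
  intro n _
  apply forall₂_congr
  intro p _
  apply not_congr
  exact ex_two

lemma SgD_two (b : ℕ) (D : ℕ → Finset ℕ) (k : ℕ) (κ β c : Fin 2 → ℤ) (z : ℕ) :
    SgD b D k κ β c z = SgD2 b D k (κ 0) (β 0) (κ 1) (β 1) (c 0) (c 1) z := by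
  unfold SgD SgD2
  rw [loc_two_eq]
  simp only [nu_two_eq]

lemma card_two (X X' : ℕ) (Q : ℕ × ℕ → Prop) [DecidablePred Q] :
    ((Fintype.piFinset (fun j : Fin 2 => Icc 1 ((![X, X'] : Fin 2 → ℕ) j))).filter (fun c => Q (c 0, c 1))).card =
      ((Icc 1 X ×ˢ Icc 1 X').filter Q).card := by
  apply card_bij (fun c _ => (c 0, c 1))
  · intro c hc
    rw [mem_filter, Fintype.mem_piFinset] at hc
    rw [mem_filter, mem_product]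
    exact ⟨⟨hc.1 0, hc.1 1⟩, hc.2⟩
  · intro c _ c' _ h
    rw [Prod.mk.injEq] at h
    funext j
    fin_cases j
    · exact h.1
    · exact h.2
  · intro m hm
    rw [mem_filter, mem_product] at hm
    refine ⟨![m.1, m.2], ?_, rfl⟩
    rw [mem_filter, Fintype.mem_piFinset]
    refine ⟨fun j => ?_, hm.2⟩
    fin_cases j
    · exact hm.1.1
    · exact hm.1.2

/-- two polynomials, the von Mangoldt function -/
theorem main_vm2 (b : ℕ) (hb : 2 ≤ b) (κ β κ' β' : ℤ) (hκ : ld κ β ≠ 0) (hκ' : ld κ' β' ≠ 0)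
    (f f' : ℕ → ℝ) (hf : ∀ n, th n ≤ f n ∧ f n ≤ ArithmeticFunction.vonMangoldt n)
    (hf' : ∀ n, th n ≤ f' n ∧ f' n ≤ ArithmeticFunction.vonMangoldt n) (F₀ U : ℕ) :
    ∃ B : ℕ, ∀ E : ℕ, ∃ K₀ : ℕ, ∀ k : ℕ, K₀ ≤ k → ∀ z : ℕ, (k : ℝ) ^ B ≤ z → (z : ℝ) ≤ (k : ℝ) ^ E →
    ∀ D : ℕ → Finset ℕ, (∀ i < k, D i ⊆ range b ∧ 2 ≤ (D i).card) → ∀ σ σ' : ℤ, (σ = 1 ∨ σ = -1) → (σ' = 1 ∨ σ' = -1) →
    ∀ X X' : ℕ, b ^ (dg κ * k) ≤ X → X ≤ F₀ * b ^ (dg κ * k) → b ^ (dg κ' * k) ≤ X' → X' ≤ F₀ * b ^ (dg κ' * k) →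
    ∀ Q : ℕ × ℕ → Prop, [DecidablePred Q] →
    (∀ c ∈ Icc 1 X ×ˢ Icc 1 X', Q c → (∀ n < b ^ k, 1 ≤ qv κ β n + σ * (c.1 : ℤ) ∧ 1 ≤ qv κ' β' n + σ' * (c.2 : ℤ)) ∧
      1 / (k : ℝ) ^ U < |1 / ((SD b D k).card : ℝ) * ∑ n ∈ SD b D k, (fx f (qv κ β n + σ * (c.1 : ℤ)) * fx f' (qv κ' β' n + σ' * (c.2 : ℤ))) -
        SgD2 b D k κ β κ' β' (σ * (c.1 : ℤ)) (σ' * (c.2 : ℤ)) z|) →
    (((Icc 1 X ×ˢ Icc 1 X').filter Q).card : ℝ) ≤ ((X : ℝ) * X') / (k : ℝ) ^ U := by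
  obtain ⟨B, h1⟩ := main_vm b hb 2 ![κ, κ'] ![β, β'] (by intro j; fin_cases j <;> assumption) ![f, f'] (by intro j; fin_cases j <;> assumption) F₀ U
  refine ⟨B, fun E => ?_⟩
  obtain ⟨K₀, h2⟩ := h1 E
  refine ⟨K₀, fun k hk z hz1 hz2 D hD σ σ' hσ hσ' X X' hX1 hX2 hX1' hX2' Q _ hQ => ?_⟩
  have h3 := h2 k hk z hz1 hz2 D hD ![σ, σ'] (by intro j; fin_cases j <;> assumption) ![X, X'] (by
    intro j
    fin_cases j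
    · exact ⟨hX1, hX2⟩
    · exact ⟨hX1', hX2'⟩) (fun c => Q (c 0, c 1)) (by
    intro c hc hQc
    rw [Fintype.mem_piFinset] at hc
    obtain ⟨h4, h5⟩ := hQ (c 0, c 1) (mem_product.2 ⟨hc 0, hc 1⟩) hQc
    refine ⟨fun j n hn => ?_, ?_⟩
    · fin_cases j
      · exact (h4 n hn).1
      · exact (h4 n hn).2
    · rw [SgD_two]
      simp only [Fin.prod_univ_two]
      exact h5)
  rw [card_two] at h3
  simpa [Fin.prod_univ_two] using h3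

/-- two polynomials, many prime values -/
theorem main_pos2 (b : ℕ) (hb : 2 ≤ b) (κ β κ' β' : ℤ) (hκ : ld κ β ≠ 0) (hκ' : ld κ' β' ≠ 0) (F₀ A U : ℕ) :
    ∃ K₀ : ℕ, ∀ k : ℕ, K₀ ≤ k →
    ∀ D : ℕ → Finset ℕ, (∀ i < k, D i ⊆ range b ∧ 2 ≤ (D i).card) → ∀ σ σ' : ℤ, (σ = 1 ∨ σ = -1) → (σ' = 1 ∨ σ' = -1) →
    ∀ X X' : ℕ, b ^ (dg κ * k) ≤ X → X ≤ F₀ * b ^ (dg κ * k) → b ^ (dg κ' * k) ≤ X' → X' ≤ F₀ * b ^ (dg κ' * k) →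
    ∀ Q : ℕ × ℕ → Prop, [DecidablePred Q] →
    (∀ c ∈ Icc 1 X ×ˢ Icc 1 X', Q c → (∀ n < b ^ k, 1 ≤ qv κ β n + σ * (c.1 : ℤ) ∧ 1 ≤ qv κ' β' n + σ' * (c.2 : ℤ)) ∧
      (∀ p : ℕ, p.Prime → b < p → nu2 κ β κ' β' (σ * (c.1 : ℤ)) (σ' * (c.2 : ℤ)) p < p) ∧
      ((SD b D k).card : ℝ) / (k : ℝ) ^ A ≤ (loc2 b D k κ β κ' β' (σ * (c.1 : ℤ)) (σ' * (c.2 : ℤ)) : ℝ) ∧
      (((SD b D k).filter (fun n : ℕ => (qv κ β n + σ * (c.1 : ℤ)).toNat.Prime ∧ (qv κ' β' n + σ' * (c.2 : ℤ)).toNat.Prime)).card : ℝ) <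
        ((SD b D k).card : ℝ) / (k : ℝ) ^ (A + 22)) →
    (((Icc 1 X ×ˢ Icc 1 X').filter Q).card : ℝ) ≤ ((X : ℝ) * X') / (k : ℝ) ^ U := by
  obtain ⟨K₀, h2⟩ := main_pos b hb 2 (by norm_num) ![κ, κ'] ![β, β'] (by intro j; fin_cases j <;> assumption) F₀ A U
  refine ⟨K₀, fun k hk D hD σ σ' hσ hσ' X X' hX1 hX2 hX1' hX2' Q _ hQ => ?_⟩
  have h3 := h2 k hk D hD ![σ, σ'] (by intro j; fin_cases j <;> assumption) ![X, X'] (by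
    intro j
    fin_cases j
    · exact ⟨hX1, hX2⟩
    · exact ⟨hX1', hX2'⟩) (fun c => Q (c 0, c 1)) (by
    intro c hc hQc
    rw [Fintype.mem_piFinset] at hc
    obtain ⟨h4, h5, h6, h7⟩ := hQ (c 0, c 1) (mem_product.2 ⟨hc 0, hc 1⟩) hQc
    refine ⟨fun j n hn => ?_, ?_, ?_, ?_⟩
    · fin_cases j
      · exact (h4 n hn).1
      · exact (h4 n hn).2
    · intro p hp hbp
      rw [nu_two_eq]
      exact h5 p hp hbp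
    · have h8 := loc_two_eq b D k ![κ, κ'] ![β, β'] (fun j => (![σ, σ'] : Fin 2 → ℤ) j * (c j : ℤ))
      rw [h8]
      exact h6
    · refine lt_of_le_of_lt (le_of_eq ?_) h7
      congr 2
      apply filter_congr
      intro n _
      exact Fin.forall_fin_two)
  rw [card_two] at h3
  simpa [Fin.prod_univ_two] using h3

end Pool.Agent.TH872.Sq
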