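import Pool.Agent.TH872.Sq.W23

set_option autoImplicit false

/-! The local factors of a pair of linear polynomials. -/

namespace Pool.Agent.TH872.Sq
open Finset
open Pool.Agent.H373R2.T7

lemma lin_root (p : ℕ) (hp : 0 < p) (c : ℤ) : (range p).filter (fun a : ℕ => (p : ℤ) ∣ (a : ℤ) - c) = {(c % p).toNat} := by
  have hp' : (0 : ℤ) < p := by exact_mod_cast hp
  have h0 := Int.emod_nonneg c hp'.ne'
  have h1 := Int.emod_lt_of_pos c hp'
  ext a
  rw [mem_filter, mem_range, mem_singleton]
  constructor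
  · rintro ⟨h2, h3⟩
    have h4 : (a : ℤ) % p = c % p := Int.emod_eq_emod_iff_emod_sub_eq_zero.2 (Int.emod_eq_zero_of_dvd h3)
    rw [Int.emod_eq_of_lt (Int.natCast_nonneg a) (by exact_mod_cast h2)] at h4
    omega
  · intro h2
    have h3 : (a : ℤ) = c % p := by omega
    refine ⟨by omega, ?_⟩
    rw [h3]
    have h4 : c % p - c = -(c - c % p) := by ring
    rw [h4, dvd_neg]
    exact Int.dvd_self_sub_emod

/-- the number of the roots of a pair of linear polynomials -/
lemma card_pair (p : ℕ) (hp : 0 < p) (c c' : ℤ) :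
    ((range p).filter (fun a : ℕ => (p : ℤ) ∣ (a : ℤ) - c ∨ (p : ℤ) ∣ (a : ℤ) - c')).card = if (p : ℤ) ∣ c - c' then 1 else 2 := by
  have hp' : (0 : ℤ) < p := by exact_mod_cast hp
  rw [filter_or, lin_root p hp c, lin_root p hp c']
  by_cases h : (p : ℤ) ∣ c - c'
  · rw [if_pos h]
    have h4 : c % p = c' % p := Int.emod_eq_emod_iff_emod_sub_eq_zero.2 (Int.emod_eq_zero_of_dvd h)
    rw [h4, union_self, card_singleton]
  · rw [if_neg h]
    have h4 : (c % p).toNat ≠ (c' % p).toNat := by
      intro h5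
      apply h
      have h0 := Int.emod_nonneg c hp'.ne'
      have h0' := Int.emod_nonneg c' hp'.ne'
      have h6 : c % p = c' % p := by omega
      exact Int.dvd_of_emod_eq_zero (Int.emod_eq_emod_iff_emod_sub_eq_zero.1 h6)
    rw [← insert_eq, card_pair_ne h4]
where
  card_pair_ne {a b : ℕ} (h : a ≠ b) : ({a, b} : Finset ℕ).card = 2 := Finset.card_pair h

lemma mem_SD {b : ℕ} {D : ℕ → Finset ℕ} {k n : ℕ} (h : n ∈ SD b D k) : n < b ^ k := by
  unfold SD at h
  exact mem_range.1 (mem_filter.1 h).1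

end Pool.Agent.TH872.Sq
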